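import Pool.Agent.H104.MZ.Stm

/-!
# Project MZ (helper104), jobs NUM and KK: numerical conditions
-/

set_option autoImplicit false

open Polynomial Finset Filter Topology

namespace Pool.Agent.Q121.MZ

open Pool.Agent.H104.MZ

/-- polynomially bounded -/
def PB (f : ℕ → ℕ) : Prop := ∃ K P : ℕ, ∀ s, f s ≤ K * (s + 1) ^ P

theorem PB.const (c : ℕ) : PB (fun _ => c) := ⟨c, 0, fun s => by simp⟩

theorem PB.id : PB (fun s => s) := ⟨1, 1, fun s => by simp⟩

theorem PB.mono {f g : ℕ → ℕ} (hg : PB g) (h : ∀ s, f s ≤ g s) : PB f := by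
  obtain ⟨K, P, hK⟩ := hg
  exact ⟨K, P, fun s => (h s).trans (hK s)⟩

theorem PB.add {f g : ℕ → ℕ} (hf : PB f) (hg : PB g) : PB (fun s => f s + g s) := by
  obtain ⟨K, P, hK⟩ := hf
  obtain ⟨K', P', hK'⟩ := hg
  refine ⟨K + K', P + P', fun s => ?_⟩
  have h1 : (s + 1) ^ P ≤ (s + 1) ^ (P + P') := Nat.pow_le_pow_right (by omega) (by omega)
  have h2 : (s + 1) ^ P' ≤ (s + 1) ^ (P + P') := Nat.pow_le_pow_right (by omega) (by omega)
  calc f s + g s ≤ K * (s + 1) ^ P + K' * (s + 1) ^ P' := Nat.add_le_add (hK s) (hK' s)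
    _ ≤ K * (s + 1) ^ (P + P') + K' * (s + 1) ^ (P + P') :=
        Nat.add_le_add (Nat.mul_le_mul_left _ h1) (Nat.mul_le_mul_left _ h2)
    _ = (K + K') * (s + 1) ^ (P + P') := by ring

theorem PB.mul {f g : ℕ → ℕ} (hf : PB f) (hg : PB g) : PB (fun s => f s * g s) := by
  obtain ⟨K, P, hK⟩ := hf
  obtain ⟨K', P', hK'⟩ := hg
  refine ⟨K * K', P + P', fun s => ?_⟩
  calc f s * g s ≤ (K * (s + 1) ^ P) * (K' * (s + 1) ^ P') := Nat.mul_le_mul (hK s) (hK' s)
    _ = K * K' * (s + 1) ^ (P + P') := by rw [pow_add]; ring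

theorem PB.pow {f : ℕ → ℕ} (hf : PB f) (n : ℕ) : PB (fun s => f s ^ n) := by
  induction n with
  | zero => simpa using PB.const 1
  | succ n ih => simpa only [pow_succ] using ih.mul hf

theorem PB.ev {f : ℕ → ℕ} (hf : PB f) : ∃ s0, ∀ s ≥ s0, f s ≤ 2 ^ s := by
  obtain ⟨K, P, hK⟩ := hf
  have h1 := tendsto_pow_const_div_const_pow_of_one_lt P (r := (2 : ℝ)) (by norm_num)
  have h2 : ∀ᶠ n : ℕ in atTop, (n : ℝ) ^ P / 2 ^ n < 1 / (2 * (K + 1)) :=
    h1.eventually (gt_mem_nhds (by positivity))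
  obtain ⟨s0, hs0⟩ := eventually_atTop.mp h2
  refine ⟨s0, fun s hs => (hK s).trans ?_⟩
  have h3 := hs0 (s + 1) (by omega)
  rw [div_lt_div_iff₀ (by positivity) (by positivity), one_mul] at h3
  push_cast at h3
  have h4 : (K : ℝ) * ((s : ℝ) + 1) ^ P ≤ 2 ^ s := by
    have h5 : 0 ≤ ((s : ℝ) + 1) ^ P := by positivity
    rw [pow_succ] at h3
    nlinarith
  exact_mod_cast h4

theorem t_KK : S_KK := by
  intro C
  have h : PB (fun k => (16 * k ^ 3 + 1) ^ (8 * C)) :=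
    ((((PB.const 16).mul (PB.id.pow 3)).add (PB.const 1)).pow (8 * C))
  obtain ⟨s0, hs0⟩ := h.ev
  exact ⟨max s0 1, le_max_right _ _, hs0 _ (le_max_left _ _)⟩

theorem t_NUM : S_NUM := by
  intro C k B Q E A hC hk hB hBk hQ
  -- the small power
  have hb8 : ∀ s, (B ^ (C * s / k)) ^ 8 ≤ 2 ^ s := by
    intro s
    rw [← Nat.pow_le_pow_iff_left (n := C) (by omega)]
    calc ((B ^ (C * s / k)) ^ 8) ^ C = (B ^ (8 * C)) ^ (C * s / k) := by
          rw [← pow_mul, ← pow_mul, ← pow_mul]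
          congr 1
          ring
      _ ≤ (2 ^ k) ^ (C * s / k) := Nat.pow_le_pow_left hBk _
      _ = 2 ^ (k * (C * s / k)) := by rw [← pow_mul]
      _ ≤ 2 ^ (C * s) := Nat.pow_le_pow_right (by norm_num) (Nat.mul_div_le _ _)
      _ = (2 ^ s) ^ C := by rw [← pow_mul, mul_comm]
  have hb1 : ∀ s, 1 ≤ B ^ (C * s / k) := fun s => Nat.one_le_pow _ _ (by omega)
  have hMM : PB (MM C k) := by
    refine PB.mono (((PB.const C).mul PB.id).add (PB.const 1)) fun s => ?_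
    unfold MM
    exact Nat.add_le_add_right (Nat.div_le_self _ _) 1
  have hdd : PB (dd C k E) := (PB.const (E + k)).mul hMM
  have hll : PB (ll C k E) := (PB.const 16).mul (hdd.pow 3)
  have hq1 : PB (fun s => 4 * (ll C k E s + 1) * B) :=
    ((PB.const 4).mul (hll.add (PB.const 1))).mul (PB.const B)
  have hCs : PB (fun s => (C * s) ^ 2) := ((PB.const C).mul PB.id).pow 2
  have hq2 : PB (fun s => 1 + 8 * (C * s) ^ 2 + (C * s) ^ 2 * (Q + s)) :=
    ((PB.const 1).add ((PB.const 8).mul hCs)).add (hCs.mul ((PB.const Q).add PB.id))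
  have hr : PB (fun s => (4 * (ll C k E s + 1) * B) ^ 2 *
      (1 + 8 * (C * s) ^ 2 + (C * s) ^ 2 * (Q + s))) := (hq1.pow 2).mul hq2
  obtain ⟨r, hr'⟩ : ∃ r : ℕ → ℕ, r = fun s => (4 * (ll C k E s + 1) * B) ^ 2 *
      (1 + 8 * (C * s) ^ 2 + (C * s) ^ 2 * (Q + s)) := ⟨_, rfl⟩
  rw [← hr'] at hr
  obtain ⟨b, hb⟩ : ∃ b : ℕ → ℕ, b = fun s => B ^ (C * s / k) := ⟨_, rfl⟩
  have hb8' : ∀ s, b s ^ 8 ≤ 2 ^ s := by rw [hb]; exact hb8
  have hb1' : ∀ s, 1 ≤ b s := by rw [hb]; exact hb1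
  have hRR : ∀ s, RR C k E B Q s = r s * b s ^ 2 := by
    intro s
    unfold RR TT
    rw [hr', hb]
    have e : B ^ MM C k s = B ^ (C * s / k) * B := by
      unfold MM
      rw [pow_succ]
    rw [e]
    ring
  -- powers of `b`
  have hb2 : ∀ s, 1 ≤ b s ^ 2 := fun s => Nat.one_le_pow _ _ (hb1' s)
  have hb24 : ∀ s, b s ^ 2 ≤ b s ^ 4 := fun s => Nat.pow_le_pow_right (hb1' s) (by norm_num)
  -- the comparison
  have hcmp : ∀ q : ℕ → ℕ, PB q → ∃ s0, ∀ s ≥ s0, q s * b s ^ 4 ≤ 2 ^ s := by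
    intro q hq
    obtain ⟨s0, hs0⟩ := (hq.pow 2).ev
    refine ⟨s0, fun s hs => ?_⟩
    rw [← Nat.pow_le_pow_iff_left (n := 2) (by norm_num)]
    calc (q s * b s ^ 4) ^ 2 = q s ^ 2 * b s ^ 8 := by ring
      _ ≤ 2 ^ s * 2 ^ s := Nat.mul_le_mul (hs0 s hs) (hb8' s)
      _ = (2 ^ s) ^ 2 := by ring
  have hY : ∀ s, YY C k E B Q A s ≤
      (A * MM C k s + Q * (r s * ll C k E s * ll C k E s + ll C k E s + 2)) * b s ^ 2 := by
    intro s
    unfold YY
    rw [hRR]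
    have h1 := hb2 s
    have h2 : A * MM C k s ≤ A * MM C k s * b s ^ 2 := Nat.le_mul_of_pos_right _ h1
    have h3 : ll C k E s + 2 ≤ (ll C k E s + 2) * b s ^ 2 := Nat.le_mul_of_pos_right _ h1
    calc A * MM C k s + Q * ((r s * b s ^ 2 * ll C k E s + 1) * ll C k E s + 2)
        = A * MM C k s + Q * (r s * ll C k E s * ll C k E s * b s ^ 2 + (ll C k E s + 2)) := by ring
      _ ≤ A * MM C k s * b s ^ 2 + Q * (r s * ll C k E s * ll C k E s * b s ^ 2 +
            (ll C k E s + 2) * b s ^ 2) :=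
          Nat.add_le_add h2 (Nat.mul_le_mul_left _ (Nat.add_le_add_left h3 _))
      _ = _ := by ring
  have hR1 : ∀ s, RR C k E B Q s + 1 ≤ (r s + 1) * b s ^ 2 := by
    intro s
    rw [hRR]
    have h1 := hb2 s
    calc r s * b s ^ 2 + 1 ≤ r s * b s ^ 2 + b s ^ 2 := Nat.add_le_add_left h1 _
      _ = (r s + 1) * b s ^ 2 := by ring
  have hqA : PB (fun s => (r s + 1) *
      (A * MM C k s + Q * (r s * ll C k E s * ll C k E s + ll C k E s + 2))) :=
    (hr.add (PB.const 1)).mul (((PB.const A).mul hMM).add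
      ((PB.const Q).mul ((((hr.mul hll).mul hll).add hll).add (PB.const 2))))
  have hqB : PB (fun s => 2 * (r s * ll C k E s * ll C k E s + ll C k E s) + 1) :=
    ((PB.const 2).mul (((hr.mul hll).mul hll).add hll)).add (PB.const 1)
  obtain ⟨s1, hs1⟩ := hcmp _ hqA
  obtain ⟨s2, hs2⟩ := hcmp _ hqB
  have hE : PB (fun s => E * MM C k s + 1) := ((PB.const E).mul hMM).add (PB.const 1)
  obtain ⟨s3, hs3⟩ := hE.ev
  refine ⟨max s1 (max s2 s3), fun s hs => ⟨?_, ?_, ?_⟩⟩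
  · have h1 := hs1 s ((le_max_left _ _).trans hs)
    have h2 : (RR C k E B Q s + 1) * YY C k E B Q A s ≤ 2 ^ s := by
      refine (Nat.mul_le_mul (hR1 s) (hY s)).trans (le_trans (le_of_eq ?_) h1)
      ring
    exact h2.trans (Nat.le_mul_of_pos_left _ (by omega))
  · have h1 := hs2 s ((le_max_left _ _).trans ((le_max_right _ _).trans hs))
    refine le_trans ?_ h1
    rw [hRR]
    have h2 := hb24 s
    have h3 : 1 ≤ b s ^ 4 := (hb2 s).trans h2
    have h4 : ll C k E s ≤ ll C k E s * b s ^ 4 := Nat.le_mul_of_pos_right _ h3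
    have h5 : r s * ll C k E s * ll C k E s * b s ^ 2 ≤
        r s * ll C k E s * ll C k E s * b s ^ 4 := Nat.mul_le_mul_left _ h2
    calc 2 * ((r s * b s ^ 2 * ll C k E s + 1) * ll C k E s) + 1
        = 2 * (r s * ll C k E s * ll C k E s * b s ^ 2 + ll C k E s) + 1 := by ring
      _ ≤ 2 * (r s * ll C k E s * ll C k E s * b s ^ 4 + ll C k E s * b s ^ 4) + b s ^ 4 :=
          Nat.add_le_add (Nat.mul_le_mul_left _ (Nat.add_le_add h5 h4)) h3
      _ = _ := by ring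
  · have h1 := hs3 s ((le_max_right _ _).trans ((le_max_right _ _).trans hs))
    omega

end Pool.Agent.Q121.MZ
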